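import Pool.Agent.helper62.CSA.SpecB

/-!
# csw:INSX (MP_70a088_an, class S): W+ gives the interface P2S.INS (helper46)
-/

set_option autoImplicit false

open Complex Metric Set Filter Topology MeasureTheory
open Pool.Agent.helper98.ILF
open HY (UD T S hd UN RM)
open PM (DD rm cx pd cr hdf LP DP)
open CSS (SE SV it JJ IB)
open PL (INR EUK cm BS DQ PG DK ht tr DI CY hG hq)
open P2S (VK VC KK JK LEV SS TP LO FC PZ GJ BJ FLS FL FR TL CLS PC)
open P2A (mg)

noncomputable section

namespace P2AS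

lemma INSX_J {f : SE} {V : Set ℂ} (hS : SS f V) {x : ℂ} (hx : x ∈ JK f V) (w : ℕ) : it f w x ∈ JK f V := by
  induction w with
  | zero => exact hx
  | succ w ih =>
    show (fun w : ℂ => f.eval w)^[w + 1] x ∈ JK f V
    rw [Function.iterate_succ_apply']
    exact (hS.Ji _).2 ih

theorem INSX (hOUT2 : OUT2_stmt) (hWND : WND_stmt) (hFLC : P2S.FLC_stmt) : INSX_stmt := by
  intro f e₀ hW V hSS μ x₀ hTP U a C t hU ha hC hlo
  refine ⟨hlo, ?_⟩
  intro x H w χ G hJ hev hFR hTL
  have hcls := (hFLC f V hSS μ x₀ hTP C).1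
  obtain ⟨e, he, hW2⟩ := hWND f e₀ hW
  refine hOUT2 f V hSS μ x₀ hTP (PC f V x₀ C) hcls x hJ U (fun j => j) H χ hU (hev.mono fun j h => h.2.2) hFR w G hTL
    ?_ a ha ?_ (1 / 2) (by norm_num) ⟨e, he, ?_⟩
  · filter_upwards [hev] with j hj
    exact ⟨by omega, by omega⟩
  · filter_upwards [hev, hlo] with j hj hl v hv
    obtain ⟨h1, h2, h3⟩ := hj
    exact hl v (by omega) (H j - w j) (by omega) (x j) (hcls.up j (x j) (H j) (H j - w j + v) h3 (by omega) (by omega))
  · filter_upwards with j u v huv _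
    exact hW2 V hSS _ _ _ (INSX_J hSS (hJ j) u) (by omega)

end P2AS
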